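import Pool.Agent.H904Z.RP.Main

set_option autoImplicit false

namespace Pool.Agent.Results.MP_5ec613_pr.AProducts

open Pool.Agent.H904Z.RP MeasureTheory Metric

/-- Random polytopes in a product `K = K_1 × ⋯ × K_m` of convex bodies with twice differentiable
boundary of positive Gaussian curvature have, up to constant factors, the same expected face
numbers and the same expected missed volume as in the product of unit balls of the same
dimensions. -/
theorem result (m : ℕ) (hm : 1 ≤ m) (d : Fin m → ℕ) (hd : ∀ i, 1 ≤ d i)
    (K : ∀ i, Set (EuclideanSpace ℝ (Fin (d i)))) (hK : ∀ i, IsBody (K i))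
    (hc : ∀ i, PosCurv (K i)) :
    (∀ j < ∑ i, d i, Asymp (expFaces (Set.pi Set.univ K) j)
      (expFaces (Set.pi Set.univ fun i => closedBall (0 : EuclideanSpace ℝ (Fin (d i))) 1) j)) ∧
    Asymp (expDeficit (Set.pi Set.univ K))
      (expDeficit (Set.pi Set.univ fun i => closedBall (0 : EuclideanSpace ℝ (Fin (d i))) 1)) :=
  main m hm d hd K hK hc

end Pool.Agent.Results.MP_5ec613_pr.AProducts
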